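import Pool.Agent.U331.FS.H
import Pool.Agent.Results.MP_de5eaa_nt.NormalOrder

/-!
# Wilson primes of progressions: differences which are ANY integral combinations of an infinite sequence in every dense set

A Wilson prime of the progression `b, b + a, b + 2a, …` is a prime `p`, not a divisor of `a`, for which Wilson's congruence for this
progression holds modulo `p ^ 2`. We show that EVERY set `B` of natural numbers with at least `c N` elements up to `N` for all large `N`
contains the terms of an infinite sequence `x_n ≤ M(n)`, where the function `M` does not depend on `B`, with the following property. For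
ALL nonzero integral vectors `u` with finite support and entries of absolute value at most `H`, with largest index `n`, and for
`v = |∑ uᵢ xᵢ|`: ALL progressions `b, b + k, b + 2k, …` with `|b| ≤ n`, `k ≥ 1` and `|k - v| ≤ n` have at least `n` Wilson primes. There is no
exception among the infinitely many combinations.

Proof: a greedy choice. At the step `n` there are at most `(2 H + 1) ^ (n + 1)` conditions for the new term, each of them excludes at
most twice as many integers as there are integers near the exceptions, and these have density zero by the starting result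
`NormalOrder` (`Pool.Agent.U331.FS`).
-/

set_option autoImplicit false

namespace Pool.Agent.Results.MP_de5eaa_nt.AllCombinations

open Finset
open Pool.Agent.U331.FS (AllSumsDens all_sums_dens)
open Pool.Agent.Results.MP_de5eaa_nt.NormalOrder (count)

/-- At the scale `X`, ALL progressions `b, b + k, b + 2k, …` with `|b| ≤ n`, `k ≥ 1` and `|k - v| ≤ n` have at least `n` Wilson primes up to
`X + n`. -/
def Near (n X v : ℕ) : Prop :=
  ∀ b : ℤ, |b| ≤ n → ∀ k : ℕ, 1 ≤ k → |(k : ℤ) - v| ≤ n → n ≤ count b k (X + n)

/-- **Theorem.** The property `Near n X v` holds for all combinations `v` with bounded coefficients and largest index `n` of an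
infinite sequence in every set of positive lower density (`AllSumsDens`). -/
theorem result : AllSumsDens Near := by
  classical
  have h := NormalOrder.result.2.2.2
  apply all_sums_dens
  intro n ε hε
  obtain ⟨X₀, hX₀⟩ := h n (ε / (2 * (2 * n + 1) * (2 * n + 1))) (by positivity)
  refine ⟨max X₀ (n + 1), fun X hX => ?_⟩
  have h1 := fun b : ℤ => hX₀ (X + n) (((le_max_left _ _).trans hX).trans (Nat.le_add_right _ _)) b
  have hsub : {m : ℕ | 1 ≤ m ∧ m ≤ X ∧ ¬ Near n X m} ⊆
      (((Icc (-(n : ℤ)) n).biUnion fun b => ((Icc 1 (X + n)).filter (fun a : ℕ => count b a (X + n) < n)).biUnion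
        fun k => Icc (k - n) (k + n) : Finset ℕ) : Set ℕ) := by
    rintro m ⟨h2, h3, h4⟩
    unfold Near at h4
    push Not at h4
    obtain ⟨b, hb, k, hk1, hk2, hk3⟩ := h4
    rw [mem_coe, mem_biUnion]
    refine ⟨b, mem_Icc.2 (abs_le.1 hb), ?_⟩
    rw [mem_biUnion]
    have h5 := abs_le.1 hk2
    refine ⟨k, ?_, ?_⟩
    · rw [mem_filter, mem_Icc]
      exact ⟨⟨hk1, by omega⟩, hk3⟩
    · rw [mem_Icc]
      omega
  have h2 : ({m : ℕ | 1 ≤ m ∧ m ≤ X ∧ ¬ Near n X m}.ncard : ℝ) ≤
      ∑ b ∈ Icc (-(n : ℤ)) n, (((Icc 1 (X + n)).filter (fun a : ℕ => count b a (X + n) < n)).card : ℝ) * (2 * n + 1) := by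
    have h3 : {m : ℕ | 1 ≤ m ∧ m ≤ X ∧ ¬ Near n X m}.ncard ≤
        ∑ b ∈ Icc (-(n : ℤ)) n, ((Icc 1 (X + n)).filter (fun a : ℕ => count b a (X + n) < n)).card * (2 * n + 1) := by
      refine le_trans (Set.ncard_le_ncard hsub (finite_toSet _)) ?_
      rw [Set.ncard_coe_finset]
      refine card_biUnion_le.trans (sum_le_sum fun b _ => ?_)
      refine card_biUnion_le_card_mul _ _ _ (fun k _ => ?_)
      rw [Nat.card_Icc]
      omega
    exact_mod_cast h3
  refine h2.trans ?_
  have h4 : ((X + n : ℕ) : ℝ) ≤ 2 * X := by
    have : n + 1 ≤ X := (le_max_right _ _).trans hX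
    have h5 : X + n ≤ 2 * X := by omega
    exact_mod_cast h5
  have h5 : ∀ b ∈ Icc (-(n : ℤ)) n, (((Icc 1 (X + n)).filter (fun a : ℕ => count b a (X + n) < n)).card : ℝ) * (2 * n + 1) ≤
      ε * X / (2 * n + 1) := by
    intro b _
    have h6 := h1 b
    calc (((Icc 1 (X + n)).filter (fun a : ℕ => count b a (X + n) < n)).card : ℝ) * (2 * n + 1)
        ≤ (ε / (2 * (2 * n + 1) * (2 * n + 1)) * (2 * X)) * (2 * n + 1) := by
          gcongr
          refine le_trans ?_ (mul_le_mul_of_nonneg_left h4 (by positivity))
          convert h6 using 3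
      _ = _ := by
        field_simp
  refine (sum_le_card_nsmul _ _ _ h5).trans (le_of_eq ?_)
  rw [Int.card_Icc, nsmul_eq_mul]
  have h6 : ((((n : ℤ) + 1 - -(n : ℤ)).toNat : ℕ) : ℝ) = 2 * n + 1 := by
    have : ((n : ℤ) + 1 - -(n : ℤ)).toNat = 2 * n + 1 := by omega
    rw [this]
    push_cast
    ring
  rw [h6]
  field_simp

end Pool.Agent.Results.MP_de5eaa_nt.AllCombinations
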