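import Pool.Agent.U442.WP.In
import Pool.Agent.Helper92K9.WI.Ord

/-!
# Wilson primes of arithmetic progressions: the strong law for almost every difference

`p` is a Wilson prime of the progression `b, b + a, b + 2 a, …` if `p` does not divide `a` and `p ^ 2`
divides `1 +` the product of those of the first `p` terms which are not divisible by `p`; the Wilson
primes are those of the progression `1, 2, 3, …`. Heuristically there are `log log y` Wilson primes
`p ≤ y` (Crandall, Dilcher, Pomerance), infinitely many; nothing is known for a given progression.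

The starting result `NormalOrder` has the second moment over the differences `a ≤ X`, with
`y ≤ X ^ (1 / 4)`: for most `a` there are about `log log y` Wilson primes at a given height `y`. Here
all heights are treated at once, for one and the same progression, and for sparse sets of primes. The
condition depends on the residue of `a` modulo `p ^ 2` only; the residues modulo the squares of the
primes are independent for a random element of the profinite completion of the integers. With the
exponential moments of the numbers of Wilson primes at the levels where the sum of the reciprocals passes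
the integers, the Borel-Cantelli lemma and monotonicity one obtains an error term which is the square
root of the main term, up to a logarithm.
-/

set_option autoImplicit false

namespace Pool.Agent.Results.MP_de5eaa_nt.AlmostEveryProgression

open Finset MeasureTheory ProbabilityTheory Filter Topology
open scoped Classical

/-- the product of those among the first `p` terms `b, b + a, …, b + (p-1)a` of the progression
that are not divisible by `p` -/
def unitProduct (b a : ℤ) (p : ℕ) : ℤ :=
  ∏ k ∈ (range p).filter (fun k : ℕ => ¬ (p : ℤ) ∣ b + a * k), (b + a * k)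

/-- `p` is a Wilson prime of the progression `b, b + a, b + 2a, …` -/
def IsWilsonPrime (b a : ℤ) (p : ℕ) : Prop :=
  p.Prime ∧ ¬ (p : ℤ) ∣ a ∧ (p : ℤ) ^ 2 ∣ unitProduct b a p + 1

/-- the number of Wilson primes `p ≤ y`, `p ∈ S`, of the progression -/
noncomputable def count (S : Set ℕ) (b a : ℤ) (y : ℕ) : ℕ :=
  ((Icc 1 y).filter (fun p => p ∈ S ∧ IsWilsonPrime b a p)).card

/-- the sum of `1 / p` over the primes `p ≤ y` in `S` -/
noncomputable def recip (S : Set ℕ) (y : ℕ) : ℝ :=
  ∑ p ∈ (Icc 1 y).filter (fun p => p.Prime ∧ p ∈ S), 1 / (p : ℝ)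

/-- residues modulo the squares of all primes -/
abbrev Residues : Type := (p : {p : ℕ // p.Prime}) → Fin ((p : ℕ) ^ 2)

/-- the residues modulo the squares of the primes of an integer -/
def residues (a : ℕ) : Residues := fun p => ⟨a % (p : ℕ) ^ 2, Nat.mod_lt _ (pow_pos p.2.pos 2)⟩

/-- independent uniformly distributed residues -/
noncomputable def uniform : Measure Residues :=
  Measure.infinitePi fun p : {p : ℕ // p.Prime} => uniformOn (Set.univ : Set (Fin ((p : ℕ) ^ 2)))

/-- `p` is a Wilson prime of the progressions with first term `b` whose difference is the given residue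
modulo `p ^ 2` -/
def WilsonAt (b : ℤ) (ω : Residues) (p : ℕ) : Prop :=
  ∃ h : p.Prime, IsWilsonPrime b ((ω ⟨p, h⟩ : ℕ) : ℤ) p

/-- the number of the `p ≤ y`, `p ∈ S`, with this property -/
noncomputable def countAt (S : Set ℕ) (b : ℤ) (ω : Residues) (y : ℕ) : ℕ :=
  ((Icc 1 y).filter (fun p => p ∈ S ∧ WilsonAt b ω p)).card

/-- the condition -/
def cond (b : ℤ) (p : U442.WP.Pr) (a : ℕ) : Prop := Helper92K9.WI.IsWilson b (a : ℤ) p

lemma one_cond (b : ℤ) : U442.WP.One (cond b) := fun p hp => by
  have h := Helper92K9.WI.card_local b p.2 hp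
  unfold cond
  convert h

lemma isWilson_iff (b a : ℤ) (p : ℕ) : IsWilsonPrime b a p ↔ Helper92K9.WI.IsWilson b a p := Iff.rfl

lemma wilsonAt_iff (b : ℤ) (ω : Residues) (p : U442.WP.Pr) : WilsonAt b ω p ↔ cond b p (ω p : ℕ) :=
  ⟨fun ⟨_, h⟩ => h, fun h => ⟨p.2, h⟩⟩

lemma countAt_eq (S : Set ℕ) (b : ℤ) (ω : Residues) (y : ℕ) :
    (countAt S b ω y : ℝ) = ∑ p ∈ U442.WP.TS S y, U442.WP.Xi (cond b) p ω := by
  rw [U442.WP.sum_Xi]
  congr 1
  unfold countAt
  refine (card_bij (fun (p : U442.WP.Pr) _ => (p : ℕ)) ?_ ?_ ?_).symm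
  · intro p hp
    rw [mem_filter, U442.WP.mem_TS] at hp
    rw [mem_filter, mem_Icc]
    exact ⟨⟨p.2.one_lt.le, hp.1.1⟩, hp.1.2, (wilsonAt_iff b ω p).2 hp.2⟩
  · intro p _ q _ h
    exact Subtype.ext h
  · intro n hn
    rw [mem_filter, mem_Icc] at hn
    obtain ⟨h, hw⟩ := hn.2.2
    exact ⟨⟨n, h⟩, mem_filter.2 ⟨U442.WP.mem_TS.2 ⟨hn.1.2, hn.2.1⟩, hw⟩, rfl⟩

lemma residues_iff (b : ℤ) (a p : ℕ) : WilsonAt b (residues a) p ↔ IsWilsonPrime b a p := by
  constructor
  · rintro ⟨h, hw⟩
    have h1 := Helper92K9.WI.isWilson_periodic b p ((a % p ^ 2 : ℕ) : ℤ) ((a / p ^ 2 : ℕ) : ℤ)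
    have h2 : ((a % p ^ 2 : ℕ) : ℤ) + (p : ℤ) ^ 2 * ((a / p ^ 2 : ℕ) : ℤ) = a := by
      exact_mod_cast Nat.mod_add_div a (p ^ 2)
    rw [h2] at h1
    exact h1.2 hw
  · intro hw
    refine ⟨hw.1, ?_⟩
    have h1 := Helper92K9.WI.isWilson_periodic b p ((a % p ^ 2 : ℕ) : ℤ) ((a / p ^ 2 : ℕ) : ℤ)
    have h2 : ((a % p ^ 2 : ℕ) : ℤ) + (p : ℤ) ^ 2 * ((a / p ^ 2 : ℕ) : ℤ) = a := by
      exact_mod_cast Nat.mod_add_div a (p ^ 2)
    rw [h2] at h1
    exact h1.1 hw

lemma count_eq (S : Set ℕ) (b : ℤ) (a y : ℕ) : count S b a y = countAt S b (residues a) y := by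
  unfold count countAt
  congr 1
  refine filter_congr fun p _ => ?_
  rw [residues_iff]

/-- the final comparison with `log log` -/
lemma err_log {C L V N : ℝ} (hC : 0 ≤ C) (hL1 : Real.exp 1 ≤ L) (hL2 : 144 * (2 * C + C ^ 2) ≤ L)
    (hV1 : 1 ≤ V) (hV : |V - L| ≤ C) (hN : |N - V| ≤ 6 * √(V * Real.log V)) :
    |N - L| ≤ 7 * √(L * Real.log L) := by
  have hL0 : 0 < L := (Real.exp_pos 1).trans_le hL1
  have hL11 : 1 ≤ L := (by have := Real.add_one_le_exp (1 : ℝ); linarith)
  have hl1 : 1 ≤ Real.log L := by rwa [Real.le_log_iff_exp_le hL0]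
  rw [abs_le] at hV
  have hlV : Real.log V ≤ Real.log L + C / L := by
    have h9 := Real.log_le_sub_one_of_pos (show 0 < V / L by positivity)
    rw [Real.log_div (by linarith) hL0.ne'] at h9
    have : V / L - 1 ≤ C / L := by
      rw [sub_le_iff_le_add, div_add_one hL0.ne']
      gcongr
      linarith
    linarith
  have hlV0 : 0 ≤ Real.log V := Real.log_nonneg hV1
  set D := C * Real.log L + C + C ^ 2 / L with hD
  have hD0 : 0 ≤ D := by positivity
  have hs1 : √(V * Real.log V) ≤ √(L * Real.log L) + √D := by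
    rw [Real.sqrt_le_left (by positivity)]
    have e1 := Real.sq_sqrt (show (0 : ℝ) ≤ L * Real.log L by positivity)
    have e2 := Real.sq_sqrt hD0
    have e3 : V * Real.log V ≤ (L + C) * (Real.log L + C / L) := by
      have : V ≤ L + C := by linarith
      gcongr
    have e4 : (L + C) * (Real.log L + C / L) = L * Real.log L + D := by
      rw [hD]
      field_simp
      ring
    nlinarith [Real.sqrt_nonneg (L * Real.log L), Real.sqrt_nonneg D]
  have hD1 : 144 * D ≤ L * Real.log L := by
    have h1 : C ^ 2 / L ≤ C ^ 2 := div_le_self (by positivity) hL11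
    have h2 : D ≤ (2 * C + C ^ 2) * Real.log L := by
      rw [hD]
      nlinarith [sq_nonneg C]
    nlinarith
  have hs2 : C + 6 * √D ≤ √(L * Real.log L) := by
    refine Real.le_sqrt_of_sq_le ?_
    have e2 := Real.sq_sqrt hD0
    have e3 : (C + 6 * √D) ^ 2 ≤ 2 * C ^ 2 + 72 * √D ^ 2 := by
      nlinarith [sq_nonneg (C - 6 * √D)]
    nlinarith
  rw [abs_le] at hN ⊢
  constructor <;> linarith

/-- **The strong law for the Wilson primes of almost every progression.** Let `S` be a set and
`V(y) = recip S y` the sum of `1 / p` over the primes `p ≤ y` in `S`.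

(1) The Wilson primes of the progression `b, b + a, …` can be read off from the residues of `a` modulo the
squares of the primes.

(2) For almost all sequences of residues, for all `b` at once: there are infinitely many Wilson primes
in `S` if and only if `V(y)` tends to infinity; and in this case the number of those up to `y` differs from
`V(y)` by at most `6 √(V(y) log V(y))`, for all large `y`.

(3) If `V(y)` tends to infinity: for every `b` and every `ε > 0` there is `y₀` such that for all `Y` and all large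
`X`, all but `ε X` of the integers `a ≤ X` have the property that the number of the Wilson primes `p ≤ y`,
`p ∈ S`, of the progression `b, b + a, …` differs from `V(y)` by at most `6 √(V(y) log V(y))` for ALL `y` between
`y₀` and `Y`.

(4) For almost all sequences of residues and all `b` the number of all Wilson primes up to `y` differs from
`log log y` by at most `7 √(log log y log log log y)`, for all large `y`. -/
theorem result (S : Set ℕ) :
    (∀ (b : ℤ) (a p : ℕ), WilsonAt b (residues a) p ↔ IsWilsonPrime b a p) ∧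
    (∀ᵐ ω ∂uniform, ∀ b : ℤ,
      ({p : ℕ | p ∈ S ∧ WilsonAt b ω p}.Infinite ↔ Tendsto (recip S) atTop atTop) ∧
      (Tendsto (recip S) atTop atTop → ∀ᶠ y in atTop,
        |(countAt S b ω y : ℝ) - recip S y| ≤ 6 * √(recip S y * Real.log (recip S y)))) ∧
    (Tendsto (recip S) atTop atTop → ∀ (b : ℤ) (ε : ℝ), 0 < ε →
      ∃ y₀ : ℕ, ∀ Y : ℕ, ∃ X₀ : ℕ, ∀ X : ℕ, X₀ ≤ X →
        (((Icc 1 X).filter fun a : ℕ => ∃ y : ℕ, y₀ ≤ y ∧ y ≤ Y ∧
          ¬ |(count S b a y : ℝ) - recip S y| ≤ 6 * √(recip S y * Real.log (recip S y))).card : ℝ) ≤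
        ε * X) ∧
    (∀ᵐ ω ∂uniform, ∀ b : ℤ, ∀ᶠ y : ℕ in atTop,
      |(countAt Set.univ b ω y : ℝ) - Real.log (Real.log y)| ≤
        7 * √(Real.log (Real.log y) * Real.log (Real.log (Real.log y)))) := by
  have hstrong : ∀ S : Set ℕ, ∀ᵐ ω ∂uniform, ∀ b : ℤ, (Tendsto (recip S) atTop atTop → ∀ᶠ y in atTop,
        |(countAt S b ω y : ℝ) - recip S y| ≤ 6 * √(recip S y * Real.log (recip S y))) := by
    intro S
    by_cases hS : Tendsto (recip S) atTop atTop
    · have h1 : ∀ᵐ ω ∂uniform, ∀ b : ℤ, ∀ᶠ y in atTop,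
          |∑ p ∈ U442.WP.TS S y, U442.WP.Xi (cond b) p ω - recip S y| ≤
            6 * √(recip S y * Real.log (recip S y)) :=
        ae_all_iff.2 fun b => U442.WP.strong_A (one_cond b) hS
      filter_upwards [h1] with ω hω b _
      filter_upwards [hω b] with y hy
      rw [countAt_eq]
      exact hy
    · exact Eventually.of_forall fun ω b h => absurd h hS
  refine ⟨residues_iff, ?_, ?_, ?_⟩
  · by_cases hS : Tendsto (recip S) atTop atTop
    · filter_upwards [hstrong S] with ω hω b
      refine ⟨⟨fun _ => hS, fun _ => ?_⟩, hω b⟩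
      have h2 := U442.WP.infinite_of (A := cond b) (S := S) hS (ω := ω) (by
        filter_upwards [hω b hS] with y hy
        rw [← countAt_eq]
        exact hy)
      intro hfin
      refine h2 ((hfin.preimage (f := fun p : U442.WP.Pr => (p : ℕ))
        Subtype.val_injective.injOn).subset fun p hp => ?_)
      exact ⟨hp.1, (wilsonAt_iff b ω p).2 hp.2⟩
    · have h1 : ∀ᵐ ω ∂uniform, ∀ b : ℤ,
          {p : U442.WP.Pr | (p : ℕ) ∈ S ∧ cond b p (ω p : ℕ)}.Finite :=
        ae_all_iff.2 fun b => U442.WP.finite_A (one_cond b) hS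
      filter_upwards [h1] with ω hω b
      refine ⟨⟨fun hi => ?_, fun h => absurd h hS⟩, fun h => absurd h hS⟩
      exfalso
      refine hi (((hω b).image (fun p : U442.WP.Pr => (p : ℕ))).subset ?_)
      rintro p ⟨hpS, h, hw⟩
      exact ⟨⟨p, h⟩, ⟨hpS, hw⟩, rfl⟩
  · intro hS b ε hε
    obtain ⟨y₀, h0⟩ := U442.WP.integers (one_cond b) (S := S) hS hε
    refine ⟨y₀, fun Y => ?_⟩
    obtain ⟨X₀, h1⟩ := h0 Y
    refine ⟨X₀, fun X hX => ?_⟩
    refine le_trans (le_of_eq ?_) (h1 X hX)
    congr 2
    refine filter_congr fun a _ => ?_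
    refine exists_congr fun y => and_congr_right fun _ => and_congr_right fun _ => ?_
    rw [count_eq, countAt_eq]
    rfl
  · obtain ⟨C, hC⟩ := Pool.Agent.Helper601.Mertens.mertens_inv
    have hC0 : 0 ≤ C := (abs_nonneg _).trans (hC 3 le_rfl)
    have hV : ∀ y : ℕ, 3 ≤ y → |recip Set.univ y - Real.log (Real.log y)| ≤ C := by
      intro y hy
      have h1 := hC y hy
      have h2 : recip Set.univ y = ∑ p ∈ (Icc 1 y).filter Nat.Prime, 1 / (p : ℝ) := by
        unfold recip
        refine sum_congr ?_ fun _ _ => rfl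
        ext p
        simp only [mem_filter, Set.mem_univ, and_true]
      rw [h2]
      exact h1
    have hLL : Tendsto (fun y : ℕ => Real.log (Real.log y)) atTop atTop :=
      Real.tendsto_log_atTop.comp (Real.tendsto_log_atTop.comp tendsto_natCast_atTop_atTop)
    have hT : Tendsto (recip Set.univ) atTop atTop := by
      refine tendsto_atTop_mono' (f₁ := fun y : ℕ => Real.log (Real.log y) - C) atTop ?_
        (tendsto_atTop_add_const_right _ _ hLL)
      filter_upwards [eventually_ge_atTop 3] with y hy
      have := (abs_le.1 (hV y hy)).1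
      linarith
    filter_upwards [hstrong Set.univ] with ω hω b
    filter_upwards [hω b hT, hLL.eventually_ge_atTop (Real.exp 1),
      hLL.eventually_ge_atTop (144 * (2 * C + C ^ 2)),
      hT.eventually_ge_atTop 1, eventually_ge_atTop 3] with y h1 h2 h3 h5 h6
    exact err_log hC0 h2 h3 h5 (hV y h6) h1

end Pool.Agent.Results.MP_de5eaa_nt.AlmostEveryProgression
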