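import Pool.Agent.U6.EK.Sand2
import Pool.Agent.U97.EK.ES
import Pool.Agent.U696.EK.EXP
import Pool.Agent.U123.EK.GEN
import Pool.Agent.U129.EK.PROD
import Pool.Agent.U606.EK.LIM
import Pool.Agent.U908.EK.LEVY
import Pool.Agent.U603.EK.MU
import Pool.Agent.U925.EK.FM

/-!
# The number of the Wilson primes of a random arithmetic progression is asymptotically normal

Wilson's theorem for the progression `b, b + a, b + 2 a, …`: if the prime number `p` does not divide `a`, then the
product of those among the first `p` terms which are not divisible by `p` is `-1` modulo `p`. If this holds modulo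
`p²`, then `p` is a Wilson prime of the progression; `a = b = 1` gives the classical Wilson primes. The expected number of
the classical Wilson primes up to `y` is `log log y`. We prove a theorem of Erdős-Kac type: for a random difference `a` in
any interval of length `X ≥ y²` the number of the Wilson primes `p ≤ y` is asymptotically normal with mean and variance
`log log y`, uniformly in `b`, in the position of the interval and in `X`.

Author: helper6, with packages of helper123, helper603, helper606, helper696, helper908, helper97, helper129, helper925,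
helper427 (project EK). Used: exactly `p - 1` differences modulo `p²` have the Wilson prime `p` (starting library
Helper92K9/WI), the factorial moments of helper923 (U923/PP, hand-in PoissonProcess), Mertens' theorem (H305R2), Lévy's
continuity theorem (Mathlib). Method: binomial series with remainder for the characteristic function, which needs only
factorial moments of order about `log log w`, for the primes up to `w = y^(1/(3 log log y))`; first moment for the rest.
-/

set_option autoImplicit false

namespace Pool.Agent.Results.MP_de5eaa_nt.GaussianLaw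

open Finset Filter Topology

/-- the product of those among the first `p` terms `b, b + a, …, b + (p - 1) a` of the progression that are
not divisible by `p` -/
def unitProduct (b a : ℤ) (p : ℕ) : ℤ :=
  ∏ k ∈ (range p).filter (fun k : ℕ => ¬ (p : ℤ) ∣ b + a * k), (b + a * k)

/-- `p` is a Wilson prime of the progression `b, b + a, b + 2 a, …`: it does not divide `a`, and Wilson's
congruence for this progression holds modulo `p ^ 2` -/
def IsWilsonPrime (b a : ℤ) (p : ℕ) : Prop :=
  p.Prime ∧ ¬ (p : ℤ) ∣ a ∧ (p : ℤ) ^ 2 ∣ unitProduct b a p + 1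

/-- the number of the Wilson primes `p ≤ y` of the progression -/
noncomputable def number (b a : ℤ) (y : ℝ) : ℕ := {p : ℕ | IsWilsonPrime b a p ∧ (p : ℝ) ≤ y}.ncard

/-- the proportion of the differences `a` in `(H, H + X]` for which the progression `b, b + a, b + 2 a, …` has at
most `log log y + z (log log y) ^ (1 / 2)` Wilson primes up to `y` -/
noncomputable def proportion (b H : ℤ) (X : ℕ) (y z : ℝ) : ℝ :=
  ({a : ℤ | H < a ∧ a ≤ H + X ∧ (number b a y : ℝ) ≤
    Real.log (Real.log y) + z * Real.sqrt (Real.log (Real.log y))}.ncard : ℝ) / X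

/-- the distribution function of the standard normal law -/
noncomputable def normal (z : ℝ) : ℝ := (ProbabilityTheory.gaussianReal 0 1 (Set.Iic z)).toReal

/-- for `a = b = 1` these are the classical Wilson primes -/
theorem classical (p : ℕ) : IsWilsonPrime 1 1 p ↔ p.Prime ∧ p ^ 2 ∣ (p - 1).factorial + 1 := by
  unfold IsWilsonPrime
  constructor
  all_goals
    intro h
    have hp : p.Prime := h.1
    have h1 : (range p).filter (fun k : ℕ => ¬ (p : ℤ) ∣ 1 + 1 * k) = range (p - 1) := by
      ext k
      rw [mem_filter, mem_range, mem_range, one_mul]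
      constructor
      · rintro ⟨h2, h3⟩
        by_contra h4
        have : k + 1 = p := by omega
        apply h3
        refine ⟨1, ?_⟩
        push_cast [← this]
        ring
      · intro h2
        refine ⟨by omega, fun h3 => ?_⟩
        have h4 := Int.le_of_dvd (by positivity) h3
        omega
    have h2 : unitProduct 1 1 p = ((p - 1).factorial : ℤ) := by
      unfold unitProduct
      rw [h1, ← prod_range_add_one_eq_factorial]
      push_cast
      apply prod_congr rfl
      intro k _
      ring
  · refine ⟨hp, ?_⟩
    have := h.2.2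
    rw [h2] at this
    exact_mod_cast this
  · refine ⟨hp, ?_, ?_⟩
    · intro h3
      have h4 := Int.le_of_dvd one_pos h3
      have := hp.two_le
      omega
    · rw [h2]
      exact_mod_cast h.2

open Pool.Agent.U923.PP Pool.Agent.Helper92K9.WI in
theorem number_between (b H : ℤ) (n : ℕ) {y : ℝ} (hy : 0 ≤ y) :
    nev (PW 2 y) (WH b H) n ≤ number b (H + n) y ∧ number b (H + n) y ≤ nev (PW 2 y) (WH b H) n + 1 := by
  classical
  have hfin : {p : ℕ | IsWilsonPrime b (H + n) p ∧ (p : ℝ) ≤ y}.Finite := by
    refine (Set.finite_Iic ⌊y⌋₊).subset ?_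
    rintro p ⟨-, h⟩
    exact Nat.le_floor h
  unfold number nev
  constructor
  · rw [← Set.ncard_coe_finset]
    apply Set.ncard_le_ncard _ hfin
    intro p hp
    rw [Finset.mem_coe, mem_filter, mem_PW (by norm_num) hy] at hp
    exact ⟨hp.2, hp.1.2.2⟩
  · have h1 : {p : ℕ | IsWilsonPrime b (H + n) p ∧ (p : ℝ) ≤ y} ⊆
        ((insert 2 ((PW 2 y).filter fun p => WH b H p n) : Finset ℕ) : Set ℕ) := by
      rintro p ⟨h1, h2⟩
      rw [Finset.mem_coe, mem_insert]
      by_cases hp : p = 2
      · exact Or.inl hp
      · right
        rw [mem_filter, mem_PW (by norm_num) hy]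
        have h3 : 2 < p := lt_of_le_of_ne h1.1.two_le (Ne.symm hp)
        exact ⟨⟨h1.1, by exact_mod_cast h3, h2⟩, h1⟩
    have h2 := Set.ncard_le_ncard h1 (Finset.finite_toSet _)
    rw [Set.ncard_coe_finset] at h2
    exact h2.trans (card_insert_le _ _)

theorem proportion_eq (b H : ℤ) (X : ℕ) (y z : ℝ) :
    proportion b H X y z = by
      classical
      exact (((Icc 1 X).filter fun n : ℕ => (number b (H + n) y : ℝ) ≤
        Real.log (Real.log y) + z * Real.sqrt (Real.log (Real.log y))).card : ℝ) / X := by
  classical
  unfold proportion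
  congr 1
  have h : {a : ℤ | H < a ∧ a ≤ H + X ∧ (number b a y : ℝ) ≤
      Real.log (Real.log y) + z * Real.sqrt (Real.log (Real.log y))} =
      (fun n : ℕ => H + (n : ℤ)) '' (((Icc 1 X).filter fun n : ℕ => (number b (H + n) y : ℝ) ≤
        Real.log (Real.log y) + z * Real.sqrt (Real.log (Real.log y)) : Finset ℕ) : Set ℕ) := by
    ext a
    rw [Set.mem_image]
    constructor
    · rintro ⟨h1, h2, h3⟩
      obtain ⟨n, hn⟩ := Int.eq_ofNat_of_zero_le (by omega : 0 ≤ a - H)
      refine ⟨n, ?_, by omega⟩
      rw [Finset.mem_coe, mem_filter, mem_Icc]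
      have ha : H + (n : ℤ) = a := by omega
      exact ⟨by omega, by rw [ha]; exact h3⟩
    · rintro ⟨n, hn, rfl⟩
      rw [Finset.mem_coe, mem_filter, mem_Icc] at hn
      exact ⟨by omega, by omega, hn.2⟩
  rw [h, Set.ncard_image_of_injective _ (fun n n' h => by simpa using h), Set.ncard_coe_finset]

/-- the theorem for sequences -/
theorem limit (hSAND : U6.EK.T_SAND) (hHEAD : U6.EK.T_HEAD) (hMU : U6.EK.T_MU) (hFM : U6.EK.T_FM)
    {y : ℕ → ℝ} {X : ℕ → ℕ} (b H : ℕ → ℤ) (hy : ∀ n : ℕ, (n : ℝ) ≤ y n) (hX : ∀ n : ℕ, y n ^ 2 ≤ X n) (z : ℝ) :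
    Tendsto (fun n => proportion (b n) (H n) (X n) (y n) z) atTop (𝓝 (normal z)) := by
  classical
  have hyt : Tendsto y atTop atTop := tendsto_atTop_mono hy tendsto_natCast_atTop_atTop
  have h := hSAND hHEAD hMU hFM b H X y hyt hX (fun n k => number (b n) (H n + k) (y n))
    (fun n k _ => number_between (b n) (H n) k ((Nat.cast_nonneg n).trans (hy n))) z
  refine h.congr fun n => ?_
  rw [proportion_eq]

/-- **The number of the Wilson primes of a random arithmetic progression is asymptotically normal.** -/
theorem main (hSAND : U6.EK.T_SAND) (hHEAD : U6.EK.T_HEAD) (hMU : U6.EK.T_MU) (hFM : U6.EK.T_FM)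
    (z ε : ℝ) (hε : 0 < ε) : ∃ Y : ℝ, ∀ (y : ℝ) (X : ℕ) (b H : ℤ), Y ≤ y → y ^ 2 ≤ X →
      |proportion b H X y z - normal z| ≤ ε := by
  by_contra hcon
  push Not at hcon
  choose y X b H h1 h2 h3 using fun n : ℕ => hcon (n : ℝ)
  have hlim := limit hSAND hHEAD hMU hFM b H h1 h2 z
  obtain ⟨n, hn⟩ := Metric.tendsto_atTop.1 hlim ε hε
  have h4 := hn n le_rfl
  rw [Real.dist_eq] at h4
  exact absurd (h3 n) (not_lt.2 h4.le)

/-- **The number of the Wilson primes of a random arithmetic progression is asymptotically normal.** For every real `z`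
and `ε > 0` there is `Y` such that for all real `y ≥ Y`, all integers `X ≥ y²` and all integers `b` and `H`: the proportion
of the differences `a` in `(H, H + X]` for which the progression `b, b + a, b + 2 a, …` has at most
`log log y + z (log log y) ^ (1 / 2)` Wilson primes up to `y` differs by at most `ε` from the value at `z` of the standard
normal distribution function. -/
theorem result (z ε : ℝ) (hε : 0 < ε) : ∃ Y : ℝ, ∀ (y : ℝ) (X : ℕ) (b H : ℤ), Y ≤ y → y ^ 2 ≤ X →
    |proportion b H X y z - normal z| ≤ ε :=
  main U6.EK.t_SAND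
    (U6.EK.head U696.EK.t_EXP U97.EK.t_ES U123.EK.t_GEN U129.EK.t_PROD U606.EK.LIM.t_LIM U908.EK.t_LEVY U603.EK.t_MU)
    U603.EK.t_MU (U925.EK.t_FM U603.EK.t_MU) z ε hε

end Pool.Agent.Results.MP_de5eaa_nt.GaussianLaw
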