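import Pool.Agent.U923.PP.Wil

/-!
THE WILSON PRIMES OF A RANDOM ARITHMETIC PROGRESSION FORM A POISSON PROCESS.

Wilson's theorem for the progression `b, b + a, b + 2 a, …`: if the prime number `p` does not divide `a`, then the
product of those among the first `p` terms which are not divisible by `p` is `-1` modulo `p`. If this holds modulo
`p²`, then `p` is a Wilson prime of the progression; `a = b = 1` gives the classical Wilson primes. The
expected number of classical Wilson primes in `(y, z]` is `log (log z / log y)`. We prove that for every `b` and a random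
difference `a` the Wilson primes, on the scale `log log p`, form in the limit a Poisson process of intensity one.

Author: helper923. From the starting library: exactly `p - 1` differences modulo `p²` have the Wilson prime `p`
(Helper92K9/WI, used there for the normal order), Mertens' theorem (H305R2). New here (Pool/Agent/U923/PP): joint
factorial moments of the numbers of Wilson primes in disjoint windows, the multivariate Poisson limit theorem by
inclusion and exclusion, uniformly in `b` and in the position of the interval of the differences.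
-/

set_option autoImplicit false

namespace Pool.Agent.Results.MP_de5eaa_nt.PoissonProcess

open Finset Filter Topology

/-- the product of those among the first `p` terms `b, b + a, …, b + (p - 1) a` of the progression that are
not divisible by `p` -/
def unitProduct (b a : ℤ) (p : ℕ) : ℤ :=
  ∏ k ∈ (range p).filter (fun k : ℕ => ¬ (p : ℤ) ∣ b + a * k), (b + a * k)

/-- `p` is a Wilson prime of the progression `b, b + a, b + 2 a, …`: it does not divide `a`, and Wilson's
congruence for this progression holds modulo `p ^ 2` -/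
def IsWilsonPrime (b a : ℤ) (p : ℕ) : Prop :=
  p.Prime ∧ ¬ (p : ℤ) ∣ a ∧ (p : ℤ) ^ 2 ∣ unitProduct b a p + 1

/-- the number of the Wilson primes `p` of the progression with `u < p ≤ v` -/
noncomputable def number (b a : ℤ) (u v : ℝ) : ℕ := {p : ℕ | IsWilsonPrime b a p ∧ u < p ∧ (p : ℝ) ≤ v}.ncard

/-- the proportion of the differences `a` in `(H, H + X]` for which, for all `i`, exactly `k i` Wilson primes of
the progression `b, b + a, b + 2 a, …` lie in `(y ^ s i, y ^ t i]` -/
noncomputable def proportion {m : ℕ} (b H : ℤ) (X : ℕ) (y : ℝ) (s t : Fin m → ℝ) (k : Fin m → ℕ) : ℝ :=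
  ({a : ℤ | H < a ∧ a ≤ H + X ∧ ∀ i, number b a (y ^ s i) (y ^ t i) = k i}.ncard : ℝ) / X

/-- for `a = b = 1` these are the classical Wilson primes -/
theorem classical (p : ℕ) : IsWilsonPrime 1 1 p ↔ p.Prime ∧ p ^ 2 ∣ (p - 1).factorial + 1 := by
  unfold IsWilsonPrime
  constructor
  all_goals
    intro h
    have hp : p.Prime := h.1
    have h1 : (range p).filter (fun k : ℕ => ¬ (p : ℤ) ∣ 1 + 1 * k) = range (p - 1) := by
      ext k
      rw [mem_filter, mem_range, mem_range, one_mul]
      constructor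
      · rintro ⟨h2, h3⟩
        by_contra h4
        have : k + 1 = p := by omega
        apply h3
        refine ⟨1, ?_⟩
        push_cast [← this]
        ring
      · intro h2
        refine ⟨by omega, fun h3 => ?_⟩
        have h4 := Int.le_of_dvd (by positivity) h3
        omega
    have h2 : unitProduct 1 1 p = ((p - 1).factorial : ℤ) := by
      unfold unitProduct
      rw [h1, ← prod_range_add_one_eq_factorial]
      push_cast
      apply prod_congr rfl
      intro k _
      ring
  · refine ⟨hp, ?_⟩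
    have := h.2.2
    rw [h2] at this
    exact_mod_cast this
  · refine ⟨hp, ?_, ?_⟩
    · intro h3
      have h4 := Int.le_of_dvd one_pos h3
      have := hp.two_le
      omega
    · rw [h2]
      exact_mod_cast h.2

open Pool.Agent.U923.PP Pool.Agent.Helper92K9.WI in
theorem number_eq (b H : ℤ) (n : ℕ) {u v : ℝ} (hu : 0 ≤ u) (hv : 0 ≤ v) :
    number b (H + n) u v = nev (PW u v) (WH b H) n := by
  classical
  unfold number nev
  have : {p : ℕ | IsWilsonPrime b (H + n) p ∧ u < p ∧ (p : ℝ) ≤ v} =
      ((PW u v).filter fun p => WH b H p n : Finset ℕ) := by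
    ext p
    rw [Finset.mem_coe, mem_filter, mem_PW hu hv, Set.mem_ofPred_eq]
    constructor
    · rintro ⟨h1, h2, h3⟩
      exact ⟨⟨h1.1, h2, h3⟩, h1⟩
    · rintro ⟨⟨h1, h2, h3⟩, h4⟩
      exact ⟨h4, h2, h3⟩
  rw [this, Set.ncard_coe_finset]

open Pool.Agent.U923.PP in
theorem proportion_eq {m : ℕ} (b H : ℤ) (X : ℕ) {y : ℝ} (hy : 0 ≤ y) (s t : Fin m → ℝ) (k : Fin m → ℕ) :
    proportion b H X y s t k = by
      classical
      exact (((Icc 1 X).filter fun n => ∀ i, nev (PW (y ^ s i) (y ^ t i)) (WH b H) n = k i).card : ℝ) /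
        ((Icc 1 X : Finset ℕ).card : ℝ) := by
  classical
  unfold proportion
  rw [Nat.card_Icc, Nat.add_sub_cancel]
  congr 1
  have h : {a : ℤ | H < a ∧ a ≤ H + X ∧ ∀ i, number b a (y ^ s i) (y ^ t i) = k i} =
      (fun n : ℕ => H + (n : ℤ)) '' (((Icc 1 X).filter fun n => ∀ i, nev (PW (y ^ s i) (y ^ t i)) (WH b H) n = k i : Finset ℕ) : Set ℕ) := by
    ext a
    rw [Set.mem_image]
    constructor
    · rintro ⟨h1, h2, h3⟩
      obtain ⟨n, hn⟩ := Int.eq_ofNat_of_zero_le (by omega : 0 ≤ a - H)
      refine ⟨n, ?_, by omega⟩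
      rw [Finset.mem_coe, mem_filter, mem_Icc]
      refine ⟨by omega, fun i => ?_⟩
      rw [← number_eq b H n (by positivity) (by positivity), ← h3 i]
      congr 1
      omega
    · rintro ⟨n, hn, rfl⟩
      rw [Finset.mem_coe, mem_filter, mem_Icc] at hn
      refine ⟨by omega, by omega, fun i => ?_⟩
      rw [number_eq b H n (by positivity) (by positivity)]
      exact hn.2 i
  rw [h, Set.ncard_image_of_injective _ (fun n n' h => by simpa using h), Set.ncard_coe_finset]

open Pool.Agent.U923.PP Pool.Agent.Helper92K9.WI in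
/-- the theorem for sequences -/
theorem limit {m : ℕ} {s t : Fin m → ℝ} (hs : ∀ i, 0 < s i) (hst : ∀ i, s i < t i)
    (hd : ∀ i j, i ≠ j → Disjoint (Set.Ioc (s i) (t i)) (Set.Ioc (s j) (t j))) (k : Fin m → ℕ)
    {y : ℕ → ℝ} {X : ℕ → ℕ} (b H : ℕ → ℤ) (hy : ∀ n : ℕ, (n : ℝ) ≤ y n) (hy2 : ∀ n i, 2 ≤ y n ^ s i) (hy1 : ∀ n, 1 < y n)
    (hX : ∀ n : ℕ, y n ^ (n : ℝ) ≤ X n) :
    Tendsto (fun n => proportion (b n) (H n) (X n) (y n) s t k) atTop
      (𝓝 (∏ i, s i / t i * Real.log (t i / s i) ^ k i / (k i).factorial)) := by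
  classical
  have hyt : Tendsto y atTop atTop := tendsto_atTop_mono hy tendsto_natCast_atTop_atTop
  have hy0 : ∀ n, 0 < y n := fun n => lt_trans one_pos (hy1 n)
  set τ : ℝ := ∑ i, t i with hτ
  have ht0 : ∀ i, 0 < t i := fun i => (hs i).trans (hst i)
  have hτi : ∀ i, t i ≤ τ := fun i => single_le_sum (fun j _ => (ht0 j).le) (mem_univ i)
  have hτ0 : 0 ≤ τ := sum_nonneg fun i _ => (ht0 i).le
  have hXpos : ∀ n, 0 < X n := by
    intro n
    have : (0 : ℝ) < X n := lt_of_lt_of_le (Real.rpow_pos_of_pos (hy0 n) _) (hX n)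
    exact_mod_cast this
  have hZ : ∀ n i, y n ^ t i ≤ y n ^ τ := fun n i => Real.rpow_le_rpow_of_exponent_le (hy1 n).le (hτi i)
  have key := poisson_events (α := ℕ) (Ω := fun n => Icc 1 (X n)) (P := fun n i => PW (y n ^ s i) (y n ^ t i))
    (W := fun n => WH (b n) (H n)) (q := fun _ => gg) (Z := fun n => y n ^ τ) (m := fun n => ∑ i, 1 / y n ^ s i)
    (lam := fun i => Real.log (t i / s i)) ?_ ?_ ?_ ?_ ?_ ?_ ?_ ?_ ?_ ?_ k
  · have e : ∀ i, Real.exp (-Real.log (t i / s i)) = s i / t i := by
      intro i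
      rw [Real.exp_neg, Real.exp_log (div_pos (ht0 i) (hs i)), inv_div]
    simp only [e] at key
    refine key.congr fun n => ?_
    rw [proportion_eq _ _ _ (hy0 n).le]
    congr!
  · intro n i j hij
    rw [disjoint_left]
    intro p hp hp'
    rw [mem_PW (by have := hy0 n; positivity) (by have := hy0 n; positivity)] at hp hp'
    have hp0 : (0 : ℝ) < p := by exact_mod_cast hp.1.pos
    have hly : 0 < Real.log (y n) := Real.log_pos (hy1 n)
    have h1 : Real.log p / Real.log (y n) ∈ Set.Ioc (s i) (t i) := by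
      constructor
      · rw [lt_div_iff₀ hly, ← Real.log_rpow (hy0 n)]
        exact Real.log_lt_log (Real.rpow_pos_of_pos (hy0 n) _) hp.2.1
      · rw [div_le_iff₀ hly, ← Real.log_rpow (hy0 n)]
        exact Real.log_le_log hp0 hp.2.2
    have h2 : Real.log p / Real.log (y n) ∈ Set.Ioc (s j) (t j) := by
      constructor
      · rw [lt_div_iff₀ hly, ← Real.log_rpow (hy0 n)]
        exact Real.log_lt_log (Real.rpow_pos_of_pos (hy0 n) _) hp'.2.1
      · rw [div_le_iff₀ hly, ← Real.log_rpow (hy0 n)]
        exact Real.log_le_log hp0 hp'.2.2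
    exact Set.disjoint_left.1 (hd i j hij) h1 h2
  · intro n
    exact Real.one_le_rpow (hy1 n).le hτ0
  · intro n i
    refine le_trans ?_ (hZ n i)
    have h1 : (PW (y n ^ s i) (y n ^ t i)).card ≤ ⌊y n ^ t i⌋₊ := by
      unfold PW
      refine (card_filter_le _ _).trans ?_
      rw [Nat.card_Ioc]
      omega
    calc ((PW (y n ^ s i) (y n ^ t i)).card : ℝ) ≤ (⌊y n ^ t i⌋₊ : ℝ) := by exact_mod_cast h1
      _ ≤ y n ^ t i := Nat.floor_le (by have := hy0 n; positivity)
  · intro n
    rw [Nat.card_Icc, Nat.add_sub_cancel]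
    exact hXpos n
  · intro n T hT
    refine WH_cnt (b n) (H n) (X n) T (fun p hp => ?_) (fun p hp => ?_)
    · obtain ⟨i, hi⟩ := hT p hp
      rw [mem_PW (by have := hy0 n; positivity) (by have := hy0 n; positivity)] at hi
      refine ⟨hi.1, ?_⟩
      rintro rfl
      have := hy2 n i
      have h3 := hi.2.1
      push_cast at h3
      linarith
    · obtain ⟨i, hi⟩ := hT p hp
      rw [mem_PW (by have := hy0 n; positivity) (by have := hy0 n; positivity)] at hi
      exact hi.2.2.trans (hZ n i)
  · intro n i p hp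
    exact gg_nonneg (mem_filter.1 hp).2
  · intro n i p hp
    rw [mem_PW (by have := hy0 n; positivity) (by have := hy0 n; positivity)] at hp
    refine (gg_le hp.1 (Real.rpow_pos_of_pos (hy0 n) (s i)) hp.2.1).trans ?_
    exact single_le_sum (f := fun i => 1 / y n ^ s i) (fun j _ => by have := hy0 n; positivity) (mem_univ i)
  · have h0 : Tendsto (fun n => ∑ i, 1 / y n ^ s i) atTop (𝓝 (∑ _i : Fin m, (0 : ℝ))) :=
      tendsto_finsetSum _ fun i _ => tendsto_const_nhds.div_atTop ((tendsto_rpow_atTop (hs i)).comp hyt)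
    rwa [sum_const_zero] at h0
  · intro i
    exact sum_gg hyt (hs i) (hst i)
  · intro R
    have h0 : Tendsto (fun n => 1 / y n) atTop (𝓝 0) := tendsto_const_nhds.div_atTop hyt
    refine squeeze_zero' (Eventually.of_forall fun n => by have := hy0 n; positivity) ?_ h0
    filter_upwards [eventually_ge_atTop ⌈τ * R + 1⌉₊] with n hn
    have hn' : τ * R + 1 ≤ n := (Nat.le_ceil _).trans (by exact_mod_cast hn)
    have hX0 : (0 : ℝ) < X n := by exact_mod_cast hXpos n
    rw [Nat.card_Icc, Nat.add_sub_cancel, div_le_div_iff₀ hX0 (hy0 n), one_mul]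
    refine le_trans ?_ (hX n)
    have e : (y n ^ τ) ^ R * y n = y n ^ (τ * R + 1) := by
      rw [Real.rpow_add (hy0 n), Real.rpow_one, Real.rpow_mul (hy0 n).le, Real.rpow_natCast]
    rw [e]
    exact Real.rpow_le_rpow_of_exponent_le (hy1 n).le hn'

/-- **The Wilson primes of a random arithmetic progression form a Poisson process.** Let `(s_1, t_1], …, (s_m, t_m]` be
disjoint intervals of positive numbers, `k_1, …, k_m` nonnegative integers and `ε > 0`. There is `A` such that for
all `y ≥ A`, all `X ≥ y ^ A` and all integers `b` and `H`: the proportion of the differences `a` in `(H, H + X]`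
for which exactly `k_i` Wilson primes of the progression `b, b + a, b + 2 a, …` lie in `(y ^ s_i, y ^ t_i]`, for
all `i`, differs by at most `ε` from the product of the probabilities `exp (- λ_i) λ_i ^ k_i / k_i !`,
`λ_i = log (t_i / s_i)`, `exp (- λ_i) = s_i / t_i`. -/
theorem result (m : ℕ) (s t : Fin m → ℝ) (hs : ∀ i, 0 < s i) (hst : ∀ i, s i < t i)
    (hd : ∀ i j, i ≠ j → Disjoint (Set.Ioc (s i) (t i)) (Set.Ioc (s j) (t j))) (k : Fin m → ℕ)
    (ε : ℝ) (hε : 0 < ε) :
    ∃ A : ℝ, ∀ (y : ℝ) (X : ℕ) (b H : ℤ), A ≤ y → y ^ A ≤ X →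
      |proportion b H X y s t k - ∏ i, s i / t i * Real.log (t i / s i) ^ k i / (k i).factorial| ≤ ε := by
  by_contra hcon
  push Not at hcon
  -- a point from which on all the powers are at least two
  obtain ⟨Y₀, hY₀⟩ : ∃ Y₀ : ℝ, ∀ y : ℝ, Y₀ ≤ y → ∀ i, 2 ≤ y ^ s i := by
    have h : ∀ᶠ y : ℝ in atTop, ∀ i, 2 ≤ y ^ s i :=
      eventually_all.2 fun i => (tendsto_rpow_atTop (hs i)).eventually_ge_atTop 2
    obtain ⟨Y, hY⟩ := eventually_atTop.1 h
    exact ⟨Y, hY⟩
  choose y X b H h1 h2 h3 using fun n : ℕ => hcon ((n : ℝ) + (|Y₀| + 2))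
  have hy : ∀ n : ℕ, (n : ℝ) ≤ y n := fun n => by
    have := h1 n
    have := abs_nonneg Y₀
    linarith
  have hyY : ∀ n, Y₀ ≤ y n := fun n => by
    have := h1 n
    have := le_abs_self Y₀
    have : (0 : ℝ) ≤ n := Nat.cast_nonneg n
    linarith
  have hy1 : ∀ n, 1 < y n := fun n => by
    have := h1 n
    have := abs_nonneg Y₀
    have : (0 : ℝ) ≤ n := Nat.cast_nonneg n
    linarith
  have hX : ∀ n : ℕ, y n ^ (n : ℝ) ≤ X n := fun n => by
    refine le_trans (Real.rpow_le_rpow_of_exponent_le (hy1 n).le ?_) (h2 n)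
    have := abs_nonneg Y₀
    linarith
  have hlim := limit hs hst hd k b H hy (fun n i => hY₀ (y n) (hyY n) i) hy1 hX
  obtain ⟨n, hn⟩ := Metric.tendsto_atTop.1 hlim ε hε
  have h4 := hn n le_rfl
  rw [Real.dist_eq] at h4
  exact absurd (h3 n) (not_lt.2 h4.le)

end Pool.Agent.Results.MP_de5eaa_nt.PoissonProcess
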